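import Mathlib

/-!
Extension of a valuation ring of `F(u)` (containing `F`) to `Ω(u)` (containing `Ω`).
-/

open MvPolynomial

namespace LV

/-- there is an additive retraction `Ω → F` which is `F`-linear -/
lemma exists_retraction {F Ω : Type*} [Field F] [Field Ω] (φ : F →+* Ω) :
    ∃ l : Ω →+ F, l 1 = 1 ∧ ∀ (ω : Ω) (c : F), l (ω * φ c) = l ω * c := by
  let _ : Algebra F Ω := φ.toAlgebra
  obtain ⟨l, hl⟩ := (Algebra.linearMap F Ω).exists_leftInverse_of_injective
    (LinearMap.ker_eq_bot.2 (algebraMap F Ω).injective)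
  refine ⟨l.toAddMonoidHom, ?_, fun ω c => ?_⟩
  · have := LinearMap.congr_fun hl (1 : F)
    simpa using this
  · have h1 : ω * φ c = c • ω := by rw [Algebra.smul_def, mul_comm]; rfl
    change l (ω * φ c) = l ω * c
    rw [h1, map_smul, smul_eq_mul, mul_comm]

lemma retraction_poly {σ F Ω : Type*} [Field F] [Field Ω] (φ : F →+* Ω) (l : Ω →+ F)
    (h1 : l 1 = 1) (hl : ∀ (ω : Ω) (c : F), l (ω * φ c) = l ω * c) {ι : Type*} (s : Finset ι)
    (ω : ι → Ω) (P : ι → MvPolynomial σ F) (D : MvPolynomial σ F)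
    (h : ∑ i ∈ s, C (ω i) * MvPolynomial.map φ (P i) = MvPolynomial.map φ D) :
    ∑ i ∈ s, C (l (ω i)) * P i = D := by
  ext m
  have h2 := congrArg l (congrArg (coeff m) h)
  simp only [coeff_sum, coeff_C_mul, coeff_map, map_sum, hl] at h2 ⊢
  rw [h2]
  have := hl 1 (coeff m D)
  rwa [one_mul, h1, one_mul] at this

variable {σ F Ω E L : Type*} [Field F] [Field Ω] [Field E] [Field L]
  [Algebra (MvPolynomial σ F) E] [IsFractionRing (MvPolynomial σ F) E]
  [Algebra (MvPolynomial σ Ω) L] [IsFractionRing (MvPolynomial σ Ω) L]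

/-- linear disjointness of `Ω` and `F(u)` over `F` -/
theorem linDisj (φ : F →+* Ω) (j : E →+* L)
    (hj : ∀ p, j (algebraMap (MvPolynomial σ F) E p) =
      algebraMap (MvPolynomial σ Ω) L (MvPolynomial.map φ p))
    {ι : Type*} (s : Finset ι) (ω : ι → Ω) (x : ι → E) (y : E)
    (h : ∑ i ∈ s, algebraMap (MvPolynomial σ Ω) L (C (ω i)) * j (x i) = j y) :
    ∃ l : ι → F, ∑ i ∈ s, algebraMap (MvPolynomial σ F) E (C (l i)) * x i = y := by
  classical
  obtain ⟨l, h1, hl⟩ := exists_retraction φ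
  obtain ⟨b, hb⟩ := IsLocalization.exist_integer_multiples (nonZeroDivisors (MvPolynomial σ F))
    (s.map ⟨some, Option.some_injective _⟩ ∪ {none}) (fun o : Option ι => o.elim y x)
  have hb0 : algebraMap (MvPolynomial σ F) E b ≠ 0 :=
    IsLocalization.to_map_ne_zero_of_mem_nonZeroDivisors _ le_rfl b.2
  have hx : ∀ i ∈ s, ∃ P, algebraMap (MvPolynomial σ F) E P =
      algebraMap (MvPolynomial σ F) E b * x i := by
    intro i hi
    obtain ⟨P, hP⟩ := hb (some i) (Finset.mem_union_left _ (Finset.mem_map_of_mem _ hi))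
    refine ⟨P, ?_⟩
    rw [hP]
    exact Algebra.smul_def _ _
  obtain ⟨D, hD⟩ : ∃ P, algebraMap (MvPolynomial σ F) E P =
      algebraMap (MvPolynomial σ F) E b * y := by
    obtain ⟨P, hP⟩ := hb none (Finset.mem_union_right _ (Finset.mem_singleton_self _))
    refine ⟨P, ?_⟩
    rw [hP]
    exact Algebra.smul_def _ _
  choose! P hP using hx
  have hbj : j (algebraMap (MvPolynomial σ F) E b) ≠ 0 := by
    intro h0
    exact hb0 ((map_eq_zero j).1 h0)
  have key : ∑ i ∈ s, C (ω i) * MvPolynomial.map φ (P i) = MvPolynomial.map φ D := by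
    apply IsFractionRing.injective (MvPolynomial σ Ω) L
    rw [map_sum, ← hj, hD, map_mul, ← h, Finset.mul_sum]
    refine Finset.sum_congr rfl fun i hi => ?_
    rw [map_mul, ← hj, hP i hi, map_mul]
    ring
  have key2 := retraction_poly φ l h1 hl s ω P D key
  refine ⟨fun i => l (ω i), ?_⟩
  have key3 := congrArg (algebraMap (MvPolynomial σ F) E) key2
  rw [map_sum, hD] at key3
  apply mul_left_cancel₀ hb0
  rw [← key3, Finset.mul_sum]
  refine Finset.sum_congr rfl fun i hi => ?_
  rw [map_mul, hP i hi]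
  ring

lemma mul_mem_nonunits {E : Type*} [Field E] (V : ValuationSubring E) {x y : E} (hx : x ∈ V)
    (hy : y ∈ V.nonunits) : x * y ∈ V.nonunits := by
  rw [ValuationSubring.mem_nonunits_iff, map_mul]
  have h1 : V.valuation x ≤ 1 := (V.valuation_le_one_iff x).2 hx
  have h2 : V.valuation y < 1 := V.mem_nonunits_iff.1 hy
  exact mul_lt_one_of_nonneg_of_lt_one_right h1 zero_le h2

/-- **V2** -/
theorem exists_extension (φ : F →+* Ω) (j : E →+* L)
    (hj : ∀ p, j (algebraMap (MvPolynomial σ F) E p) =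
      algebraMap (MvPolynomial σ Ω) L (MvPolynomial.map φ p))
    (V : ValuationSubring E) (hV : ∀ c : F, algebraMap (MvPolynomial σ F) E (C c) ∈ V) :
    ∃ V' : ValuationSubring L, (∀ c : Ω, algebraMap (MvPolynomial σ Ω) L (C c) ∈ V') ∧
      ∀ x : E, x ∈ V ↔ j x ∈ V' := by
  classical
  let κ : Ω →+* L := (algebraMap (MvPolynomial σ Ω) L).comp C
  let _ : Algebra Ω L := κ.toAlgebra
  have hκ : ∀ c : Ω, algebraMap Ω L c = algebraMap (MvPolynomial σ Ω) L (C c) := fun _ => rfl
  -- the subring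
  let S : Submonoid L := V.toSubring.toSubmonoid.map (j : E →* L)
  let T : Set L := j '' (V.nonunits : Set E)
  let R : Subalgebra Ω L := Algebra.adjoin Ω (S : Set L)
  have hR : Subalgebra.toSubmodule R = Submodule.span Ω (S : Set L) := by
    rw [Algebra.adjoin_eq_span, Submonoid.closure_eq]
  have hSR : ∀ x ∈ V, j x ∈ R := fun x hx => Algebra.subset_adjoin ⟨x, hx, rfl⟩
  have hN : (1 : L) ∉ Submodule.span Ω T := by
    intro h1
    obtain ⟨n, c, g, hs⟩ := Submodule.mem_span_set'.1 h1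
    choose x hx hxg using fun i => (g i).2
    have h2 : ∑ i ∈ (Finset.univ : Finset (Fin n)),
        algebraMap (MvPolynomial σ Ω) L (C (c i)) * j (x i) = j 1 := by
      rw [map_one, ← hs]
      refine Finset.sum_congr rfl fun i _ => ?_
      rw [Algebra.smul_def, ← hxg i]
      rfl
    obtain ⟨l, hl⟩ := linDisj φ j hj Finset.univ c x 1 h2
    have h3 : (1 : E) ∈ V.nonunits := by
      rw [← hl]
      exact sum_mem fun i _ => mul_mem_nonunits V (hV _) (hx i)
    rw [ValuationSubring.mem_nonunits_iff, map_one] at h3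
    exact lt_irrefl _ h3
  -- the ideal
  have hmul : ∀ a ∈ R, ∀ y ∈ Submodule.span Ω T, a * y ∈ Submodule.span Ω T := by
    intro a ha y hy
    have h1 : a * y ∈ Submodule.span Ω (S : Set L) * Submodule.span Ω T :=
      Submodule.mul_mem_mul (hR ▸ ha) hy
    rw [Submodule.span_mul_span] at h1
    refine Submodule.span_mono ?_ h1
    rintro _ ⟨_, ⟨b, hb, rfl⟩, _, ⟨z, hz, rfl⟩, rfl⟩
    refine ⟨b * z, mul_mem_nonunits V hb hz, ?_⟩
    simp
  let I : Ideal R.toSubring :=
    { carrier := {x | (x : L) ∈ Submodule.span Ω T}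
      add_mem' := fun {a b} ha hb => by
        have h : (a : L) + (b : L) ∈ Submodule.span Ω T := add_mem ha hb
        exact h
      zero_mem' := by
        have h : (0 : L) ∈ Submodule.span Ω T := zero_mem _
        exact h
      smul_mem' := fun a x hx => by
        have h : (a : L) * (x : L) ∈ Submodule.span Ω T := hmul _ a.2 _ hx
        exact h }
  have hI : I ≠ ⊤ := by
    intro h
    apply hN
    have : (1 : R.toSubring) ∈ I := h ▸ Submodule.mem_top
    exact this
  obtain ⟨V', hV', hnon⟩ := Ideal.image_subset_nonunits_valuationSubring I hI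
  have hpos : ∀ x ∈ V, j x ∈ V' := fun x hx => hV' (hSR x hx)
  refine ⟨V', fun c => hV' (R.algebraMap_mem c), fun x => ⟨hpos x, fun hx => ?_⟩⟩
  by_contra hxV
  have h1 : x⁻¹ ∈ V.nonunits := V.inv_mem_nonunits_iff.2 (Or.inr hxV)
  have h2 : j x⁻¹ ∈ V'.nonunits :=
    hnon ⟨⟨j x⁻¹, hSR _ (V.nonunits_subset h1)⟩, Submodule.subset_span ⟨_, h1, rfl⟩, rfl⟩
  rw [map_inv₀, V'.inv_mem_nonunits_iff] at h2
  rcases h2 with h2 | h2
  · apply hxV
    rw [(map_eq_zero j).1 h2]
    exact V.zero_mem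
  · exact h2 hx

end LV
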