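import Pool.Agent.Helper5.V.Defs
import Pool.Agent.Helper7.LV.V2

open MvPolynomial

namespace VF

theorem stV2.{u} : StV2.{u} := by
  intro F E _ _ e r w hw
  obtain ⟨O, hO1, hO2⟩ := LV.exists_extension (σ := Fin r) (E := Rat F r) (L := Rat E r) e
    (frMap e r) (frMap_algebraMap e r) w hw
  refine ⟨O, hO1, fun z hz => (hO2 z).1 hz, fun z hz => ?_⟩
  rw [← ValuationSubring.mem_nonunits_iff, ValuationSubring.mem_nonunits_iff_or] at hz ⊢
  rcases hz with rfl | hz
  · left
    exact map_zero _
  · right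
    rw [← map_inv₀]
    exact fun h => hz ((hO2 _).2 h)

end VF
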